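import Pool.Agent.W221.NS.Stm4
import Pool.Agent.W22.ME.TD

set_option autoImplicit false

/-!
MH-TLIN: linearity of the operator.
-/

open MeasureTheory Set Metric
open scoped ContDiff ENNReal Topology

namespace Pool.Agent.W917.MH

open H459R3.NS W221.NS Pool.Agent.W22.ME.TD

lemma T4_curl {f : V → V} (hf : ContDiff ℝ ∞ f) (i j : Fin 3) :
    T4 (fun y => chi y * (pd i (fun w => f w j) y - pd j (fun w => f w i) y)) :=
  T4_mul T4_chi ((pd_smooth (comp_smooth hf j) i).sub (pd_smooth (comp_smooth hf i) j))

theorem t_TLIN : S_TLIN := by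
  intro g C hg f h hf hh x i
  show (∑ j, pd j (KK g (fun y => chi y * (pd i (fun w => f w j - h w j) y
      - pd j (fun w => f w i - h w i) y))) x) =
    (∑ j, pd j (KK g (fun y => chi y * (pd i (fun w => f w j) y
      - pd j (fun w => f w i) y))) x) -
    ∑ j, pd j (KK g (fun y => chi y * (pd i (fun w => h w j) y
      - pd j (fun w => h w i) y))) x
  rw [← Finset.sum_sub_distrib]
  refine Finset.sum_congr rfl fun j _ => ?_
  have e : (fun y => chi y * (pd i (fun w => f w j - h w j) y
      - pd j (fun w => f w i - h w i) y)) =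
      fun y => (chi y * (pd i (fun w => f w j) y - pd j (fun w => f w i) y)) -
        (chi y * (pd i (fun w => h w j) y - pd j (fun w => h w i) y)) := by
    funext y
    rw [pd_sub (comp_smooth hf j) (comp_smooth hh j) i,
      pd_sub (comp_smooth hf i) (comp_smooth hh i) j]
    ring
  rw [e, KK_sub hg (T4_curl hf i j) (T4_curl hh i j),
    pd_sub (hg.smooth _ (T4_curl hf i j)) (hg.smooth _ (T4_curl hh i j)) j]

end Pool.Agent.W917.MH
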